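import Pool.Agent.helper52.IR.Spec

/-!
# MP_07c750_an, project IR, row ir:YAV
-/

open scoped MatrixGroups ContDiff Topology UpperHalfPlane ComplexConjugate ENNReal
open UpperHalfPlane MeasureTheory Filter Set

set_option autoImplicit false

namespace Pool.Agent.IR

open Pool.Agent.RS

/-- the kernel -/
noncomputable def YAV_K (h : ℝ → ℝ≥0∞) (κ θ0 L : ℝ) (v v' u : ℝ) : ℝ≥0∞ :=
  open Classical in if (θ0 / 2 ≤ |u| ∧ |u| ≤ 8) ∧ |u - κ * (v - v')| ≤ 2 / L then h u else 0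

theorem YAV_Kset (κ θ0 L : ℝ) : MeasurableSet {z : (ℝ × ℝ) × ℝ |
    (θ0 / 2 ≤ |z.2| ∧ |z.2| ≤ 8) ∧ |z.2 - κ * (z.1.1 - z.1.2)| ≤ 2 / L} := by
  have h1 : IsClosed {z : (ℝ × ℝ) × ℝ | θ0 / 2 ≤ |z.2|} :=
    isClosed_le continuous_const (by fun_prop)
  have h2 : IsClosed {z : (ℝ × ℝ) × ℝ | |z.2| ≤ 8} := isClosed_le (by fun_prop) continuous_const
  have h3 : IsClosed {z : (ℝ × ℝ) × ℝ | |z.2 - κ * (z.1.1 - z.1.2)| ≤ 2 / L} :=
    isClosed_le (by fun_prop) continuous_const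
  exact ((h1.inter h2).inter h3).measurableSet

theorem YAV_Km {h : ℝ → ℝ≥0∞} (hm : Measurable h) (κ θ0 L : ℝ) :
    Measurable (fun z : (ℝ × ℝ) × ℝ => YAV_K h κ θ0 L z.1.1 z.1.2 z.2) := by
  unfold YAV_K
  exact Measurable.ite (YAV_Kset κ θ0 L) (hm.comp measurable_snd) measurable_const

theorem YAV_Km1 {h : ℝ → ℝ≥0∞} (hm : Measurable h) (κ θ0 L v v' : ℝ) :
    Measurable (fun u => YAV_K h κ θ0 L v v' u) := by
  have h1 := (YAV_Km hm κ θ0 L).comp
    (g := fun z : (ℝ × ℝ) × ℝ => YAV_K h κ θ0 L z.1.1 z.1.2 z.2)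
    (f := fun u : ℝ => ((v, v'), u)) (by fun_prop)
  exact h1

theorem YAV_C {h : ℝ → ℝ≥0∞} (hm : Measurable h) {κ θ0 L v v' : ℝ} (hL : 1 ≤ L)
    (hκ1 : 1 / 2 ≤ κ) (hκ2 : κ ≤ 2) (hθ0 : 0 < θ0) (h1 : θ0 ≤ |v - v'|) (h2 : |v - v'| ≤ 1) :
    ∫⁻ κ' in Icc κ (κ * (1 + 1 / L)), h (κ' * (v - v')) ≤
      ENNReal.ofReal (1 / θ0) * ∫⁻ u, YAV_K h κ θ0 L v v' u := by
  obtain ⟨θ, hθ⟩ : ∃ θ : ℝ, θ = v - v' := ⟨_, rfl⟩
  rw [← hθ] at h1 h2 ⊢
  have hθne : θ ≠ 0 := by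
    intro h0
    rw [h0, abs_zero] at h1
    linarith
  have hL0 : 0 < L := by linarith
  have hL2 : 1 / L ≤ 1 := by
    rw [div_le_iff₀ hL0]
    linarith
  have hκ0 : 0 < κ := by linarith
  have hKm := YAV_Km1 hm κ θ0 L v v'
  have e1 : ∫⁻ κ' in Icc κ (κ * (1 + 1 / L)), h (κ' * θ) ≤
      ∫⁻ κ' in Icc κ (κ * (1 + 1 / L)), YAV_K h κ θ0 L v v' (θ * κ') := by
    refine setLIntegral_mono' measurableSet_Icc fun x hx => ?_
    have hx0 : 0 < x := lt_of_lt_of_le hκ0 hx.1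
    have hx4 : x ≤ 4 := by
      have := hx.2
      nlinarith
    have habs : |θ * x| = |θ| * x := by rw [abs_mul, abs_of_pos hx0]
    have hc : (θ0 / 2 ≤ |θ * x| ∧ |θ * x| ≤ 8) ∧ |θ * x - κ * (v - v')| ≤ 2 / L := by
      refine ⟨⟨?_, ?_⟩, ?_⟩
      · rw [habs]
        have := hx.1
        nlinarith
      · rw [habs]
        nlinarith [abs_nonneg θ]
      · rw [← hθ]
        have e : θ * x - κ * θ = θ * (x - κ) := by ring
        rw [e, abs_mul, abs_of_nonneg (by linarith [hx.1] : 0 ≤ x - κ)]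
        have h5 : x - κ ≤ κ * (1 / L) := by
          have := hx.2
          linarith
        have h6 : κ * (1 / L) ≤ 2 * (1 / L) :=
          mul_le_mul_of_nonneg_right hκ2 (by positivity)
        have h7 : 0 ≤ x - κ := by linarith [hx.1]
        have h8 : |θ| * (x - κ) ≤ 1 * (x - κ) := mul_le_mul_of_nonneg_right h2 h7
        have h9 : 2 / L = 2 * (1 / L) := by ring
        rw [h9]
        linarith
    unfold YAV_K
    rw [if_pos hc, mul_comm θ x]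
  have e2 : ∫⁻ κ', YAV_K h κ θ0 L v v' (θ * κ') =
      ENNReal.ofReal |θ⁻¹| * ∫⁻ u, YAV_K h κ θ0 L v v' u := by
    have h3 := lintegral_map (μ := (volume : Measure ℝ)) hKm (measurable_const_mul θ)
    rw [← h3, Real.map_volume_mul_left hθne, lintegral_smul_measure, smul_eq_mul]
  have e3 : ENNReal.ofReal |θ⁻¹| ≤ ENNReal.ofReal (1 / θ0) := by
    apply ENNReal.ofReal_le_ofReal
    rw [abs_inv, one_div]
    exact inv_anti₀ hθ0 h1
  calc ∫⁻ κ' in Icc κ (κ * (1 + 1 / L)), h (κ' * θ)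
      ≤ ∫⁻ κ' in Icc κ (κ * (1 + 1 / L)), YAV_K h κ θ0 L v v' (θ * κ') := e1
    _ ≤ ∫⁻ κ', YAV_K h κ θ0 L v v' (θ * κ') := setLIntegral_le_lintegral _ _
    _ = ENNReal.ofReal |θ⁻¹| * ∫⁻ u, YAV_K h κ θ0 L v v' u := e2
    _ ≤ ENNReal.ofReal (1 / θ0) * ∫⁻ u, YAV_K h κ θ0 L v v' u := mul_le_mul_left e3 _

/-- the inner integral over `v'` -/
theorem YAV_D {h : ℝ → ℝ≥0∞} {κ θ0 L v u y2 : ℝ} {Y : Set ℝ}
    (hL : 1 ≤ L) (hκ1 : 1 / 2 ≤ κ) (hY : MeasurableSet Y)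
    (hy2 : ∀ v : ℝ, volume (Y ∩ Icc (v - 4 / L) (v + 4 / L)) ≤ ENNReal.ofReal y2) :
    ∫⁻ v' in Y, YAV_K h κ θ0 L v v' u ≤
      ({u : ℝ | θ0 / 2 ≤ |u| ∧ |u| ≤ 8}.indicator h u) * ENNReal.ofReal y2 := by
  classical
  have hκ0 : 0 < κ := by linarith
  have hL0 : 0 < L := by linarith
  obtain ⟨w, hw⟩ : ∃ w : ℝ, w = v - u / κ := ⟨_, rfl⟩
  have hp : ∀ v' : ℝ, YAV_K h κ θ0 L v v' u ≤
      (Icc (w - 4 / L) (w + 4 / L)).indicator
        (fun _ => {u : ℝ | θ0 / 2 ≤ |u| ∧ |u| ≤ 8}.indicator h u) v' := by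
    intro v'
    unfold YAV_K
    split_ifs with hc
    · have hmem : v' ∈ Icc (w - 4 / L) (w + 4 / L) := by
        have h1 : v' - w = (u - κ * (v - v')) / κ := by
          rw [hw]
          field_simp
          ring
        have h2 : |v' - w| ≤ 4 / L := by
          rw [h1, abs_div, abs_of_pos hκ0, div_le_iff₀ hκ0]
          refine hc.2.trans ?_
          have h3 : 0 < 1 / L := by positivity
          have h4 : 4 / L * κ = 4 * (1 / L) * κ := by ring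
          have h5 : 2 / L = 2 * (1 / L) := by ring
          rw [h4, h5]
          nlinarith
        have h6 := abs_le.mp h2
        exact ⟨by linarith [h6.1], by linarith [h6.2]⟩
      rw [Set.indicator_of_mem hmem, Set.indicator_of_mem (show u ∈ {u : ℝ | θ0 / 2 ≤ |u| ∧ |u| ≤ 8} from hc.1)]
    · exact zero_le
  calc ∫⁻ v' in Y, YAV_K h κ θ0 L v v' u
      ≤ ∫⁻ v' in Y, (Icc (w - 4 / L) (w + 4 / L)).indicator
        (fun _ => {u : ℝ | θ0 / 2 ≤ |u| ∧ |u| ≤ 8}.indicator h u) v' := lintegral_mono hp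
    _ = ({u : ℝ | θ0 / 2 ≤ |u| ∧ |u| ≤ 8}.indicator h u) *
        volume (Y ∩ Icc (w - 4 / L) (w + 4 / L)) := by
        rw [lintegral_indicator measurableSet_Icc, setLIntegral_const,
          Measure.restrict_apply measurableSet_Icc, Set.inter_comm]
    _ ≤ _ := by
        gcongr
        exact hy2 w

theorem YAV_proof : YAV_stmt := by
  classical
  intro H Y κ θ0 y0 y2 L hH hH0 hY hY1 hκ1 hκ2 hθ0 hθ1 hL hy0 hy2
  have hL1 : (1 : ℝ) ≤ L := by exact_mod_cast hL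
  have hfinY : volume Y ≠ ⊤ := by
    refine ne_top_of_le_ne_top ?_ (measure_mono hY1)
    rw [Real.volume_Icc]
    exact ENNReal.ofReal_ne_top
  have hY0 : volume Y ≤ ENNReal.ofReal y0 := by
    rw [← ENNReal.ofReal_toReal hfinY]
    exact ENNReal.ofReal_le_ofReal hy0
  have hY2 : ∀ v : ℝ, volume (Y ∩ Icc (v - 4 / L) (v + 4 / L)) ≤ ENNReal.ofReal y2 := by
    intro v
    have hfin : volume (Y ∩ Icc (v - 4 / L) (v + 4 / L)) ≠ ⊤ :=
      ne_top_of_le_ne_top hfinY (measure_mono inter_subset_left)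
    rw [← ENNReal.ofReal_toReal hfin]
    exact ENNReal.ofReal_le_ofReal (hy2 v)
  have hy0n : 0 ≤ y0 := measureReal_nonneg.trans hy0
  have hy2n : 0 ≤ y2 := measureReal_nonneg.trans (hy2 0)
  obtain ⟨h, hh⟩ : ∃ h : ℝ → ℝ≥0∞, h = fun u => ‖H u‖ₑ := ⟨_, rfl⟩
  have hm : Measurable h := by
    rw [hh]
    exact hH.measurable.enorm
  obtain ⟨F, hF⟩ : ∃ F : ℝ → ℝ → ℝ → ℝ≥0∞, F = fun κ' v v' =>
    {z : ℝ | θ0 ≤ |v - z|}.indicator (fun z => h (κ' * (v - z))) v' := ⟨_, rfl⟩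
  have hFm : Measurable (fun z : (ℝ × ℝ) × ℝ => F z.1.1 z.1.2 z.2) := by
    have hs : MeasurableSet {z : (ℝ × ℝ) × ℝ | θ0 ≤ |z.1.2 - z.2|} :=
      (isClosed_le continuous_const (by fun_prop)).measurableSet
    have h1 : Measurable (fun z : (ℝ × ℝ) × ℝ => h (z.1.1 * (z.1.2 - z.2))) :=
      hm.comp (by fun_prop)
    have h2 := h1.indicator hs
    have e : (fun z : (ℝ × ℝ) × ℝ => F z.1.1 z.1.2 z.2) =
        {z : (ℝ × ℝ) × ℝ | θ0 ≤ |z.1.2 - z.2|}.indicator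
          (fun z : (ℝ × ℝ) × ℝ => h (z.1.1 * (z.1.2 - z.2))) := by
      rw [hF]
      rfl
    rw [e]
    exact h2
  obtain ⟨I, hI⟩ : ∃ I : Set ℝ, I = Icc κ (κ * (1 + 1 / (L : ℝ))) := ⟨_, rfl⟩
  obtain ⟨S, hS⟩ : ∃ S : Set ℝ, S = {u : ℝ | θ0 / 2 ≤ |u| ∧ |u| ≤ 8} := ⟨_, rfl⟩
  have hSm : MeasurableSet S := by
    rw [hS]
    have h1 : IsClosed {z : ℝ | θ0 / 2 ≤ |z|} := isClosed_le continuous_const (by fun_prop)
    have h2 : IsClosed {z : ℝ | |z| ≤ 8} := isClosed_le (by fun_prop) continuous_const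
    exact (h1.inter h2).measurableSet
  rw [← hI, ← hS]
  -- step A
  have stepA : ‖∫ κ' in I, ∫ v in Y, ∫ v' in Y ∩ {v' | θ0 ≤ |v - v'|}, H (κ' * (v - v'))‖ₑ ≤
      ∫⁻ κ' in I, ∫⁻ v in Y, ∫⁻ v' in Y, F κ' v v' := by
    refine (enorm_integral_le_lintegral_enorm _).trans (lintegral_mono fun κ' => ?_)
    refine (enorm_integral_le_lintegral_enorm _).trans (lintegral_mono fun v => ?_)
    refine (enorm_integral_le_lintegral_enorm _).trans (le_of_eq ?_)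
    have hA : MeasurableSet {z : ℝ | θ0 ≤ |v - z|} :=
      (isClosed_le continuous_const (by fun_prop)).measurableSet
    rw [hF]
    show _ = ∫⁻ v' in Y, {z : ℝ | θ0 ≤ |v - z|}.indicator (fun z => h (κ' * (v - z))) v'
    rw [lintegral_indicator hA, Measure.restrict_restrict hA, Set.inter_comm, hh]
  -- step B
  have stepB : ∫⁻ κ' in I, ∫⁻ v in Y, ∫⁻ v' in Y, F κ' v v' =
      ∫⁻ v in Y, ∫⁻ v' in Y, ∫⁻ κ' in I, F κ' v v' := by
    have h1 : Measurable (fun z : ℝ × ℝ => ∫⁻ v' in Y, F z.1 z.2 v') :=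
      hFm.lintegral_prod_right'
    rw [lintegral_lintegral_swap (f := fun κ' v => ∫⁻ v' in Y, F κ' v v') h1.aemeasurable]
    refine lintegral_congr fun v => ?_
    have h2 : Measurable (fun z : ℝ × ℝ => F z.1 v z.2) :=
      hFm.comp (f := fun z : ℝ × ℝ => ((z.1, v), z.2)) (by fun_prop)
    exact lintegral_lintegral_swap (f := fun κ' v' => F κ' v v') h2.aemeasurable
  -- step C
  have stepC : ∀ v ∈ Y, ∫⁻ v' in Y, ∫⁻ κ' in I, F κ' v v' ≤
      ENNReal.ofReal (1 / θ0) * ∫⁻ v' in Y, ∫⁻ u, YAV_K h κ θ0 L v v' u := by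
    intro v hv
    rw [← lintegral_const_mul' _ _ ENNReal.ofReal_ne_top]
    refine setLIntegral_mono' hY fun v' hv' => ?_
    have hv1 := hY1 hv
    have hv1' := hY1 hv'
    by_cases hc : θ0 ≤ |v - v'|
    · have h2 : |v - v'| ≤ 1 := by
        rw [abs_le]
        constructor
        · linarith [hv1.1, hv1'.2]
        · linarith [hv1.2, hv1'.1]
      refine le_trans (le_of_eq ?_) (YAV_C hm hL1 hκ1 hκ2 hθ0 hc h2)
      rw [hI]
      refine lintegral_congr fun κ' => ?_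
      rw [hF]
      exact Set.indicator_of_mem (show v' ∈ {z : ℝ | θ0 ≤ |v - z|} from hc) _
    · have h3 : ∀ κ', F κ' v v' = 0 := by
        intro κ'
        rw [hF]
        exact Set.indicator_of_notMem (show v' ∉ {z : ℝ | θ0 ≤ |v - z|} from hc) _
      simp only [h3, lintegral_zero]
      exact zero_le
  -- step D
  have stepD : ∀ v, ∫⁻ v' in Y, ∫⁻ u, YAV_K h κ θ0 L v v' u ≤
      (∫⁻ u in S, h u) * ENNReal.ofReal y2 := by
    intro v
    have h2 : Measurable (fun z : ℝ × ℝ => YAV_K h κ θ0 L v z.1 z.2) :=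
      (YAV_Km hm κ θ0 L).comp (f := fun z : ℝ × ℝ => ((v, z.1), z.2)) (by fun_prop)
    rw [lintegral_lintegral_swap (f := fun v' u => YAV_K h κ θ0 L v v' u) h2.aemeasurable]
    calc ∫⁻ u, ∫⁻ v' in Y, YAV_K h κ θ0 L v v' u
        ≤ ∫⁻ u, S.indicator h u * ENNReal.ofReal y2 := by
          refine lintegral_mono fun u => ?_
          rw [hS]
          exact YAV_D hL1 hκ1 hY hY2
      _ = _ := by
          rw [lintegral_mul_const' _ _ ENNReal.ofReal_ne_top, lintegral_indicator hSm]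
  -- the integral of `H`
  have hint : IntegrableOn H S volume := by
    have h1 : S ⊆ Icc (-8 : ℝ) 8 := by
      rw [hS]
      intro u hu
      exact abs_le.mp hu.2
    exact (hH.continuousOn.integrableOn_Icc).mono_set h1
  have hJ : ∫⁻ u in S, h u = ENNReal.ofReal (∫ u in S, H u) := by
    rw [ofReal_integral_eq_lintegral_ofReal hint (ae_of_all _ hH0), hh]
    refine lintegral_congr fun u => ?_
    exact Real.enorm_eq_ofReal (hH0 u)
  have hR0 : 0 ≤ ∫ u in S, H u := integral_nonneg hH0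
  have htot : ‖∫ κ' in I, ∫ v in Y, ∫ v' in Y ∩ {v' | θ0 ≤ |v - v'|}, H (κ' * (v - v'))‖ₑ ≤
      ENNReal.ofReal (y0 * y2 / θ0 * ∫ u in S, H u) := by
    calc ‖∫ κ' in I, ∫ v in Y, ∫ v' in Y ∩ {v' | θ0 ≤ |v - v'|}, H (κ' * (v - v'))‖ₑ
        ≤ ∫⁻ κ' in I, ∫⁻ v in Y, ∫⁻ v' in Y, F κ' v v' := stepA
      _ = ∫⁻ v in Y, ∫⁻ v' in Y, ∫⁻ κ' in I, F κ' v v' := stepB
      _ ≤ ∫⁻ v in Y, ENNReal.ofReal (1 / θ0) * ((∫⁻ u in S, h u) * ENNReal.ofReal y2) := by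
          refine setLIntegral_mono' hY fun v hv => ?_
          refine (stepC v hv).trans ?_
          gcongr
          exact stepD v
      _ = ENNReal.ofReal (1 / θ0) * ((∫⁻ u in S, h u) * ENNReal.ofReal y2) * volume Y := by
          rw [setLIntegral_const]
      _ ≤ ENNReal.ofReal (1 / θ0) * ((∫⁻ u in S, h u) * ENNReal.ofReal y2) *
          ENNReal.ofReal y0 := by gcongr
      _ = ENNReal.ofReal (y0 * y2 / θ0 * ∫ u in S, H u) := by
          rw [hJ, ← ENNReal.ofReal_mul hR0, ← ENNReal.ofReal_mul (by positivity),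
            ← ENNReal.ofReal_mul (by positivity)]
          congr 1
          ring
  rw [← ofReal_norm_eq_enorm] at htot
  have hfin := (ENNReal.ofReal_le_ofReal_iff (by positivity)).mp htot
  exact (Real.le_norm_self _).trans hfin

end Pool.Agent.IR
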